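import Mathlib
import Pool.Agent.Helper9.SS.Defs

/-!
# Towers of base changes of rational elliptic surfaces

`O` is an algebraic closure of the field with `p` elements. The field with `Q` elements is the set of
all `c : O` with `c ^ Q = c`.
-/

set_option autoImplicit false

namespace Pool.Agent.Helper9.RC

open IntermediateField Polynomial
open Pool.Agent.Helper9.SS
open Pool.Agent.Helper73.CHA (IsModelL)

/-- The number of the solutions `(x, y)` of `y ^ 2 = x ^ 3 + a * x + b` in the field with `Q`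
elements. -/
noncomputable def curveCount {O : Type} [Field O] (Q : ℕ) (a b : O) : ℕ :=
  Nat.card {z : O × O // z.1 ^ Q = z.1 ∧ z.2 ^ Q = z.2 ∧ z.2 ^ 2 = z.1 ^ 3 + a * z.1 + b}

/-- The number of the solutions `(x, y, w)`, `w ≠ 0`, of `y ^ 2 = x ^ 3 + A(w) * x + B(w)` in the
field with `Q` elements. -/
noncomputable def surfCount {O : Type} [Field O] (Q : ℕ) (A B : O[X]) : ℕ :=
  Nat.card {z : O × O × O // z.1 ^ Q = z.1 ∧ z.2.1 ^ Q = z.2.1 ∧ z.2.2 ^ Q = z.2.2 ∧ z.2.2 ≠ 0 ∧
    z.2.1 ^ 2 = z.1 ^ 3 + A.eval z.2.2 * z.1 + B.eval z.2.2}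

/-- The number of the solutions `(x, y, w)` of `y ^ 2 = x ^ 3 + A(w) * x + B(w)` in the field with `Q`
elements, such that `w ^ ((Q - 1) / n) = ζ ^ a`. -/
noncomputable def classCount {O : Type} [Field O] (Q n : ℕ) (ζ : O) (a : ℕ) (A B : O[X]) : ℕ :=
  Nat.card {z : O × O × O // z.1 ^ Q = z.1 ∧ z.2.1 ^ Q = z.2.1 ∧ z.2.2 ^ Q = z.2.2 ∧
    z.2.2 ^ ((Q - 1) / n) = ζ ^ a ∧ z.2.1 ^ 2 = z.1 ^ 3 + A.eval z.2.2 * z.1 + B.eval z.2.2}

/-- `A` and `B` have coefficients in the field with `q` elements. -/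
def IsOver {O : Type} [Field O] (q : ℕ) (A B : O[X]) : Prop :=
  (∀ i, A.coeff i ^ q = A.coeff i) ∧ ∀ i, B.coeff i ^ q = B.coeff i

/-- The curve `y ^ 2 = x ^ 3 + a * x + b` is singular, or the prime `r` does not divide the number
`2 * Q + 1 - curveCount Q a b` of the points of its quadratic twist over the field with `Q`
elements. -/
def IsAdmissible {O : Type} [Field O] (r Q : ℕ) (a b : O) : Prop :=
  4 * a ^ 3 + 27 * b ^ 2 = 0 ∨ ¬ (r : ℤ) ∣ 2 * Q + 1 - curveCount Q a b

/-- Hasse's theorem for the elliptic curve `y ^ 2 = x ^ 3 + a * x + b` over the field with `q`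
elements: `g` is the matrix of Frobenius. -/
def IsHasse {O : Type} [Field O] (q : ℕ) (a b : O) (g : Matrix (Fin 2) (Fin 2) ℤ) : Prop :=
  g.det = q ∧ ∀ N : ℕ, 0 < N → (curveCount (q ^ N) a b : ℤ) = (q : ℤ) ^ N - (g ^ N).trace

/-- The zeta function of the rational elliptic surface `y ^ 2 = x ^ 3 + A(w) * x + B(w)` over the field
with `q` elements: the matrix `g` of Frobenius on the Mordell-Weil lattice, of rank `d ≤ 8`, has
finite order `m`, which is the order of an element of the Weyl group of `E_8` and so no multiple of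
`16`. -/
def IsShioda {O : Type} [Field O] (q : ℕ) (A B : O[X]) (d m : ℕ)
    (g : Matrix (Fin d) (Fin d) ℤ) : Prop :=
  d ≤ 8 ∧ ¬ 16 ∣ m ∧ g ^ m = 1 ∧ ∀ N : ℕ, 0 < N → (surfCount (q ^ N) A B : ℤ) =
    ((q : ℤ) ^ N) ^ 2 + (q : ℤ) ^ N * ((g ^ N).trace - 1) +
      ((q : ℤ) ^ N - curveCount (q ^ N) (A.coeff 0) (B.coeff 0)) +
      ((q : ℤ) ^ N - curveCount (q ^ N) (A.coeff 4) (B.coeff 6))

/-- `K = O(x, y, w)` with `y ^ 2 = x ^ 3 + A(w ^ n) * x + B(w ^ n)`, `s` is the automorphism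
`w ↦ ζ * w` and `φ` the Frobenius endomorphism over the field with `q` elements. -/
structure IsTower {O K : Type} [Field O] [Field K] [Algebra O K] (n q : ℕ) (A B : O[X]) (x y w : K)
    (ζ : O) (s φ : K →ₐ[O] K) : Prop where
  model : IsModelL O (X ^ n) A B x y w
  prim : IsPrimitiveRoot ζ n
  sx : s x = x
  sy : s y = y
  sw : s w = algebraMap O K ζ * w
  hx : φ x = x ^ q
  hy : φ y = y ^ q
  hw : φ w = w ^ q

/-- Grothendieck's trace formula for the eigenspace of `s` for `c`: it is a quotient of the first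
cohomology `V` of the line with coefficients in the twist, belonging to `c`, of the sheaf of the first
cohomology of the fibres. -/
structure IsTracePart {O L : Type} [Field O] [Field L] (T : Coh O L) {K : Type} [Field K]
    [Algebra O K] (n q : ℕ) (A B : O[X]) (ζ : O) (s φ : K →ₐ[O] K) (c : L) {V : Type}
    [AddCommGroup V] [Module L V] (F : Module.End L V) (r : V →ₗ[L] T.H K) : Prop where
  fin : FiniteDimensional L V
  dim : Module.finrank L V ≤ 12
  comm : ∀ v, r (F v) = T.map φ (r v)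
  range : ∀ z, T.map s z = c • z ↔ z ∈ LinearMap.range r
  trace : ∀ N : ℕ, 0 < N → LinearMap.trace L V (F ^ N) =
    ∑ a ∈ Finset.range n, c ^ a * (classCount (q ^ N) n ζ a A B : L)

/-- The trace formulas, `p > 3`: for elliptic curves, for rational elliptic surfaces and for the
surfaces `y ^ 2 = x ^ 3 + A(w ^ n) * x + B(w ^ n)`, `n` prime to `6`, over a field with `q = 1` modulo
`n` elements. -/
structure Towers (p : ℕ) (O L : Type) [Field O] [Field L] extends Motives p O L where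
  hasse : ∀ (e : ℕ) (a b : O), 0 < e → a ^ p ^ e = a → b ^ p ^ e = b →
    4 * a ^ 3 + 27 * b ^ 2 ≠ 0 → ∃ g, IsHasse (p ^ e) a b g
  shioda : ∀ (e : ℕ) (A B : O[X]), 0 < e → IsRational A B → IsOver (p ^ e) A B →
    ∃ d m g, IsShioda (p ^ e) A B d m g
  trace : ∀ {K : Type} [Field K] [Algebra O K] (n e : ℕ) (A B : O[X]) (x y w : K) (ζ : O)
    (s φ : K →ₐ[O] K) (c : L), Nat.Coprime n 6 → 0 < e → n ∣ p ^ e - 1 → IsRational A B →
    IsOver (p ^ e) A B → IsTower n (p ^ e) A B x y w ζ s φ → c ^ n = 1 → c ≠ 1 →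
    ∃ (V : Type) (_ : AddCommGroup V) (_ : Module L V) (F : Module.End L V)
      (r : V →ₗ[L] H K), IsTracePart toCoh n (p ^ e) A B ζ s φ c F r

end Pool.Agent.Helper9.RC
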