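import Pool.Agent.Helper9.RC.Defs
import Pool.Agent.Helper9.SS.Add

/-! Project RC (MP_1fe969_ag). Base changes of prime power degree: Frobenius is semisimple if a certain
number is not an eigenvalue. -/

set_option autoImplicit false

namespace Pool.Agent.Helper9.RC

open IntermediateField Polynomial Module
open Pool.Agent.Helper75.QC (Uniruled IsFrob hom_ext isFrob_algebraic)
open Pool.Agent.Helper75.TC (frob_set)
open Pool.Agent.Helper73.CHA (IsModelL)
open Pool.Agent.Helper9.SS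
open Pool.Agent.Helper43.CH (IsModel)

section

variable {L V : Type} [Field L] [IsAlgClosed L] [AddCommGroup V] [Module L V]
  [FiniteDimensional L V]

/-- an endomorphism without generalised eigenvectors is semisimple -/
theorem semisimple_of_simple (F : Module.End L V) (h : ∀ α : L, SimpleAt F α) :
    F.IsSemisimple := by
  classical
  have h1 : ∀ α, F.maxGenEigenspace α ≤ F.eigenspace α := by
    intro α v hv
    obtain ⟨k, hk⟩ := (Module.End.mem_maxGenEigenspace F α v).1 hv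
    rw [Module.End.mem_eigenspace_iff]
    rcases Nat.eq_zero_or_pos k with rfl | hk0
    · have h2 : v = 0 := by simpa using hk
      rw [h2, map_zero, smul_zero]
    · have h2 : ((F - algebraMap L _ α) ^ k) v = 0 := hk
      have h3 := (h α).pow k h2 hk0.ne'
      rw [SS.sub_apply, sub_eq_zero] at h3
      exact h3
  have h2 : ⨆ α, F.eigenspace α = ⊤ := by
    rw [eq_top_iff, ← Module.End.iSup_maxGenEigenspace_eq_top F]
    exact iSup_mono h1
  set s := F.finite_hasEigenvalue.toFinset with hs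
  refine Module.End.isSemisimple_of_squarefree_aeval_eq_zero (p := ∏ α ∈ s, (X - C α)) ?_ ?_
  · exact (separable_prod_X_sub_C_iff'.2 fun a _ b _ hab => hab).squarefree
  · refine LinearMap.ext fun v => ?_
    have h3 : (⊤ : Submodule L V) ≤ LinearMap.ker (aeval F (∏ α ∈ s, (X - C α))) := by
      rw [← h2]
      refine iSup_le fun α v hv => ?_
      rw [LinearMap.mem_ker]
      by_cases hα : F.HasEigenvalue α
      · have h4 : α ∈ s := by rw [hs, Set.Finite.mem_toFinset]; exact hα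
        rw [← Finset.prod_erase_mul s _ h4, map_mul, Module.End.mul_apply]
        have h5 : aeval F (X - C α) v = 0 := by
          rw [map_sub, aeval_X, aeval_C, LinearMap.sub_apply]
          rw [Module.End.mem_eigenspace_iff] at hv
          rw [hv]
          exact sub_self _
        rw [h5, map_zero]
      · have h4 : F.eigenspace α = ⊥ := not_not.mp (Module.End.hasEigenvalue_iff.not.mp hα)
        rw [h4, Submodule.mem_bot] at hv
        rw [hv, map_zero]
    exact h3 trivial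

end

section

variable {p : ℕ} [hpr : Fact p.Prime] {O L : Type} [Field O] [CharP O p] [IsAlgClosed O] [Field L]
  [CharZero L] [IsAlgClosed L]

omit [IsAlgClosed O] in
/-- it is enough to consider one Frobenius endomorphism -/
theorem good_of_one (hΩ : ∀ c : O, ∃ k : ℕ, 0 < k ∧ c ^ p ^ k = c) (T : Coh O L)
    {K : Type} [Field K] [Algebra O K] (hK : (⊤ : IntermediateField O K).FG) {e : ℕ}
    {φ : K →ₐ[O] K} (he : 0 < e) (hφ : IsFrob (p ^ e) φ) (h : Module.End.IsSemisimple (T.map φ)) :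
    Good p T K := by
  refine Good.of_pow T hK fun e' φ' he' hφ' => ?_
  obtain ⟨Q, hQ⟩ := hK
  obtain ⟨k, hk, h1⟩ := frob_set hΩ φ hφ (Q : Set K) Q.finite_toSet
  obtain ⟨k', hk', h1'⟩ := frob_set hΩ φ' hφ' (Q : Set K) Q.finite_toSet
  refine ⟨k * k' * e, by positivity, ?_⟩
  have h2 : φ' ^ (k * k' * e) = φ ^ (k * k' * e') := by
    refine hom_ext (Q : Set K) hQ _ _ ?_
    intro a ha
    rw [h1 _ (by rw [mul_assoc]; exact Dvd.intro _ rfl) a ha, h1' _ (by rw [mul_comm k k', mul_assoc]; exact Dvd.intro _ rfl) a ha]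
    congr 2
    ring
  rw [h2, tmap_pow T]
  have : FiniteDimensional L (T.H K) := T.fin K ⟨Q, hQ⟩
  exact h.pow _

/-- if the eigenspace in `H` for `β` is zero -/
theorem simple_all {T : Motives p O L} (H : CX.CHV.FunMul) (hp3 : 3 < p) {K : Type}
    [Field K] [Algebra O K] {m : ℕ} {A B : O[X]} {x y w : K} (hAB : IsRational A B)
    (h : IsModelL O (X ^ m) A B x y w) (hm : (m : O) ≠ 0) {e j : ℕ} (he : 0 < e) (hj : 0 < j)
    (hmj : m ∣ (p ^ e) ^ j + 1) {φ : K →ₐ[O] K} (hx : φ x = x ^ p ^ e) (hy : φ y = y ^ p ^ e)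
    (hw : φ w = w ^ p ^ e)
    (hno : ∀ z : T.H K, ((T.map φ) ^ (j * 2)) z = (-((p : L) ^ e) ^ (j * 2)) • z → z = 0) (α : L) :
    SimpleAt (T.map φ) α := by
  by_cases hα : α ^ (j * 2) = -((p : L) ^ e) ^ (j * 2)
  · intro v hv
    set u := (T.map φ - algebraMap L _ α) v with hu
    have h1 : T.map φ u = α • u := by
      rw [SS.sub_apply, sub_eq_zero] at hv
      exact hv
    have h2 : ∀ i : ℕ, ((T.map φ) ^ i) u = α ^ i • u := by
      intro i
      induction i with
      | zero => rw [pow_zero, pow_zero, one_smul]; rfl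
      | succ i ih => rw [pow_succ', Module.End.mul_apply, ih, map_smul, h1, smul_smul, ← pow_succ]
    refine hno u ?_
    rw [h2, hα]
  · exact T.simple_mul H hp3 hAB h hm he hj hmj hx hy hw hα

omit [IsAlgClosed O] in
/-- the commutation of a power of Frobenius and `s` -/
theorem frob_comm {K : Type} [Field K] [Algebra O K] {m : ℕ} {A B : O[X]} {x y w : K}
    (h : IsModelL O (X ^ m) A B x y w) {E : ℕ} {ψ s : K →ₐ[O] K} {ζ : O} (hζ : ζ ^ m = 1)
    (hE : m ∣ E - 1) (hE1 : 1 ≤ E) (hx : ψ x = x ^ E) (hy : ψ y = y ^ E) (hw : ψ w = w ^ E)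
    (sx : s x = x) (sy : s y = y) (sw : s w = algebraMap O K ζ * w) :
    ψ.comp s = s.comp ψ := by
  refine h.ext ?_ ?_ ?_
  · rw [AlgHom.comp_apply, AlgHom.comp_apply, sx, hx, map_pow, sx]
  · rw [AlgHom.comp_apply, AlgHom.comp_apply, sy, hy, map_pow, sy]
  · rw [AlgHom.comp_apply, AlgHom.comp_apply, sw, hw, map_pow, sw, map_mul, AlgHom.commutes, hw,
      mul_pow, ← map_pow]
    congr 2
    obtain ⟨d, hd⟩ := hE
    have h1 : E = m * d + 1 := by omega
    rw [h1, pow_succ, pow_mul, hζ, one_pow, one_mul]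

omit [IsAlgClosed O] in
/-- the values of the powers of Frobenius -/
theorem frob_pow {K : Type} [Field K] [Algebra O K] {q : ℕ} {φ : K →ₐ[O] K} {z : K}
    (hz : φ z = z ^ q) (i : ℕ) : (φ ^ i) z = z ^ q ^ i := by
  induction i with
  | zero => rw [pow_zero, pow_zero, pow_one]; rfl
  | succ i ih =>
    rw [pow_succ']
    change φ ((φ ^ i) z) = _
    rw [ih, map_pow, hz, ← pow_mul, pow_succ']

/-- **The engine.** -/
theorem good_tower (hp3 : 3 < p) (hΩ : ∀ c : O, ∃ k : ℕ, 0 < k ∧ c ^ p ^ k = c)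
    (T : Motives p O L) {K : Type} [Field K] [Algebra O K] {m : ℕ} {A B : O[X]} {x y w : K}
    (hAB : IsRational A B) (h : IsModelL O (X ^ m) A B x y w) (hm : (m : O) ≠ 0) {e j : ℕ}
    (he : 0 < e) (hj : 0 < j) (hmj : m ∣ (p ^ e) ^ j + 1) {φ : K →ₐ[O] K} (hx : φ x = x ^ p ^ e)
    (hy : φ y = y ^ p ^ e) (hw : φ w = w ^ p ^ e) {ζ : O} (hζ : IsPrimitiveRoot ζ m)
    {s : K →ₐ[O] K} (sx : s x = x) (sy : s y = y) (sw : s w = algebraMap O K ζ * w)
    (hno : ∀ c : L, c ^ m = 1 → c ≠ 1 → ∀ z : T.H K, T.map s z = c • z →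
      T.map (φ ^ (j * 2)) z = (-((p : L) ^ e) ^ (j * 2)) • z → z = 0) :
    IsGood p T.toCoh K ∧ AllSemisimple p T.toCoh K := by
  have hm0 : m ≠ 0 := by rintro rfl; exact hm Nat.cast_zero
  have h' := IsModelL.toM h
  have hζ0 := hζ.ne_zero hm0
  obtain ⟨s₀, tx, ty, tw⟩ := h'.exists_rot hζ.pow_eq_one hζ0
  have hs : s = (s₀ : K →ₐ[O] K) := h.ext (sx.trans tx.symm) (sy.trans ty.symm) (sw.trans tw.symm)
  have hbc : IsBC p O s₀ := ⟨A, B, x, y, w, hAB, tx, ty, Or.inl ⟨m, ζ, h', hm, hζ, tw⟩⟩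
  have hsm : s₀ ^ m = 1 := h'.pow_rot hζ.pow_eq_one tx ty tw
  obtain ⟨hK, m', hm', hsm', -, R, hR1, hR2⟩ := hbc.all CX.CHE.funMul hp3
  have hfin : FiniteDimensional L (T.H K) := T.fin K hK.1
  have hSm : (T.map (s₀ : K →ₐ[O] K)) ^ m = 1 := by
    rw [← T.act_cor hK, ← map_pow, T.cor_aut_pow s₀ hsm, map_one]
  have hφ : IsFrob (p ^ e) φ := by
    show adjoin O _ = ⊤
    rw [eq_top_iff, ← h.gen, adjoin_le_iff]
    rintro z (rfl | rfl | rfl)
    · exact subset_adjoin O _ hx
    · exact subset_adjoin O _ hy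
    · exact subset_adjoin O _ hw
  have hcomm : (φ ^ (j * 2)).comp (s₀ : K →ₐ[O] K) = (s₀ : K →ₐ[O] K).comp (φ ^ (j * 2)) := by
    rw [← hs]
    refine frob_comm h hζ.pow_eq_one (E := (p ^ e) ^ (j * 2)) ?_ (Nat.one_le_pow _ _
      (pow_pos hpr.out.pos e)) (frob_pow hx _) (frob_pow hy _) (frob_pow hw _) sx sy sw
    have h1 : 1 ≤ (p ^ e) ^ j := Nat.one_le_pow _ _ (pow_pos hpr.out.pos e)
    have h2 : (p ^ e) ^ (j * 2) - 1 = ((p ^ e) ^ j + 1) * ((p ^ e) ^ j - 1) := by
      obtain ⟨d, hd⟩ := Nat.exists_eq_add_of_le h1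
      rw [pow_mul, hd]
      have h3 : (1 + d) ^ 2 = 1 + (1 + d + 1) * d := by ring
      rw [h3, Nat.add_sub_cancel_left, Nat.add_sub_cancel_left]
    rw [h2]
    exact hmj.mul_right _
  have hno' : ∀ z : T.H K, ((T.map φ) ^ (j * 2)) z = (-((p : L) ^ e) ^ (j * 2)) • z → z = 0 := by
    set β : L := -((p : L) ^ e) ^ (j * 2) with hβ
    set W : Submodule L (T.H K) := Module.End.eigenspace ((T.map φ) ^ (j * 2)) β with hW
    have hst : ∀ v ∈ W, T.map (s₀ : K →ₐ[O] K) v ∈ W := by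
      intro v hv
      rw [hW, Module.End.mem_eigenspace_iff, ← tmap_pow T.toCoh] at hv ⊢
      rw [← LinearMap.comp_apply, ← T.map_comp, hcomm, T.map_comp, LinearMap.comp_apply, hv,
        map_smul]
    set S' : Module.End L W := LinearMap.restrict (T.map (s₀ : K →ₐ[O] K)) hst with hS'
    have hS'm : S' ^ m = 1 := by
      refine LinearMap.ext fun v => Subtype.ext ?_
      rw [hS', Module.End.pow_restrict, LinearMap.coe_restrict_apply, hSm]
      rfl
    intro z hz
    have hzW : z ∈ W := Module.End.mem_eigenspace_iff.2 hz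
    have h1 := span_eigen S' hm0 hS'm ⊥ (fun c v hv => ?_) ⟨z, hzW⟩
    · have h2 := congrArg Subtype.val ((Submodule.mem_bot L).1 h1)
      exact h2
    · rw [Submodule.mem_bot]
      by_contra hv0
      have hv0' : (v : T.H K) ≠ 0 := fun h0 => hv0 (Subtype.ext h0)
      have hv' : T.map (s₀ : K →ₐ[O] K) v = c • (v : T.H K) := congrArg Subtype.val hv
      obtain ⟨hcm, -⟩ := T.eig_root hK hm0 hsm hv0' hv'
      by_cases hc : c = 1
      · rw [hc, one_smul] at hv'
        exact hv0' (fixed_zero T.toCoh hm' hsm' R hR1 hR2 v hv')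
      · refine hv0' (hno c hcm hc v (by rw [hs]; exact hv') ?_)
        have h3 := Module.End.mem_eigenspace_iff.1 v.2
        rw [tmap_pow T.toCoh]
        exact h3
  have hss : Module.End.IsSemisimple (T.map φ) :=
    semisimple_of_simple _ (simple_all CX.CHE.funMul hp3 hAB h hm he hj hmj hx hy hw hno')
  have hgood : Good p T.toCoh K := good_of_one hΩ T.toCoh hK.1 he hφ hss
  refine ⟨⟨hK.1, hgood⟩, ?_⟩
  intro K₀ _ _ g hK₀ hg e' φ' he' hφ' V _ _ Fr r hV
  exact semisimple_fin hΩ T.toCoh hK.1 hgood hK₀ g hg he' hφ' hV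

end

end Pool.Agent.Helper9.RC
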