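import Pool.Agent.Helper9.RC.Defs

/-! Project RC (MP_1fe969_ag). The partition of the points. -/

set_option autoImplicit false

namespace Pool.Agent.Helper9.RC

open Polynomial

theorem finite_fixed {O : Type} [Field O] {Q : ℕ} (hQ : 1 < Q) : {c : O | c ^ Q = c}.Finite := by
  have h0 : (X ^ Q - X : O[X]) ≠ 0 := FiniteField.X_pow_card_sub_X_ne_zero O hQ
  classical
  refine (X ^ Q - X : O[X]).roots.toFinset.finite_toSet.subset fun c hc => ?_
  rw [Finset.mem_coe, Multiset.mem_toFinset, mem_roots h0, IsRoot.def, eval_sub, eval_pow, eval_X]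
  exact sub_eq_zero.2 hc

theorem sum_classCount {O : Type} [Field O] {Q n : ℕ} (hn : 0 < n) (hQ : 1 < Q) (hnQ : n ∣ Q - 1)
    {ζ : O} (hζ : IsPrimitiveRoot ζ n) (A B : O[X]) :
    ∑ a ∈ Finset.range n, classCount Q n ζ a A B = surfCount Q A B := by
  classical
  set P : O × O × O → Prop := fun z => z.1 ^ Q = z.1 ∧ z.2.1 ^ Q = z.2.1 ∧ z.2.2 ^ Q = z.2.2 ∧
    z.2.2 ≠ 0 ∧ z.2.1 ^ 2 = z.1 ^ 3 + A.eval z.2.2 * z.1 + B.eval z.2.2 with hP
  have hfin : {z | P z}.Finite := by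
    have h1 : ({c : O | c ^ Q = c} ×ˢ ({c : O | c ^ Q = c} ×ˢ {c : O | c ^ Q = c})).Finite :=
      (finite_fixed hQ).prod ((finite_fixed hQ).prod (finite_fixed hQ))
    exact h1.subset fun z hz => ⟨hz.1, hz.2.1, hz.2.2.1⟩
  set X := hfin.toFinset with hX
  have hmem : ∀ z, z ∈ X ↔ P z := fun z => by rw [hX, Set.Finite.mem_toFinset]; rfl
  have h1 : surfCount Q A B = X.card := by
    have h2 : Nat.card {z : O × O × O // P z} = X.card := by
      have h3 : Nat.card {z : O × O × O // P z} = {z | P z}.ncard := rfl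
      rw [h3, Set.ncard_eq_toFinset_card _ hfin]
    exact h2
  have hpos : 0 < (Q - 1) / n := Nat.div_pos (Nat.le_of_dvd (by omega) hnQ) hn
  have h2 : ∀ a : ℕ, classCount Q n ζ a A B =
      (X.filter fun z => z.2.2 ^ ((Q - 1) / n) = ζ ^ a).card := by
    intro a
    unfold classCount
    rw [Nat.card_eq_of_bijective
      (fun z : {z : O × O × O // z.1 ^ Q = z.1 ∧ z.2.1 ^ Q = z.2.1 ∧ z.2.2 ^ Q = z.2.2 ∧
        z.2.2 ^ ((Q - 1) / n) = ζ ^ a ∧ z.2.1 ^ 2 = z.1 ^ 3 + A.eval z.2.2 * z.1 + B.eval z.2.2} =>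
        (⟨z.1, by
          obtain ⟨z, hz1, hz2, hz3, hz4, hz5⟩ := z
          rw [Finset.mem_filter, hmem]
          refine ⟨⟨hz1, hz2, hz3, ?_, hz5⟩, hz4⟩
          intro h0
          have h0' : z.2.2 = 0 := h0
          rw [h0', zero_pow hpos.ne'] at hz4
          exact pow_ne_zero a (hζ.ne_zero hn.ne') hz4.symm⟩ :
        {z // z ∈ X.filter fun z => z.2.2 ^ ((Q - 1) / n) = ζ ^ a})) ⟨?_, ?_⟩]
    · rw [Nat.card_eq_fintype_card, Fintype.card_coe]
    · intro z z' h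
      exact Subtype.ext (congrArg (fun t => t.1) h)
    · rintro ⟨z, hz⟩
      have hz' := hz
      rw [Finset.mem_filter, hmem] at hz'
      exact ⟨⟨z, hz'.1.1, hz'.1.2.1, hz'.1.2.2.1, hz'.2, hz'.1.2.2.2.2⟩, rfl⟩
  rw [h1, Finset.card_eq_sum_card_fiberwise (s := X)
    (t := (Finset.range n).image fun a => ζ ^ a) (f := fun z => z.2.2 ^ ((Q - 1) / n)) ?_,
    Finset.sum_image ?_]
  · exact Finset.sum_congr rfl fun a _ => h2 a
  · intro a ha b hb hab
    rw [Finset.mem_coe, Finset.mem_range] at ha hb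
    exact hζ.pow_inj ha hb hab
  · intro z hz
    have h3 := (hmem z).1 hz
    have h4 : (z.2.2 ^ ((Q - 1) / n)) ^ n = 1 := by
      rw [← pow_mul, Nat.div_mul_cancel hnQ]
      have h5 : z.2.2 ^ (Q - 1) * z.2.2 = 1 * z.2.2 := by
        rw [← pow_succ, Nat.sub_add_cancel hQ.le, h3.2.2.1, one_mul]
      exact mul_right_cancel₀ h3.2.2.2.1 h5
    have : NeZero n := ⟨hn.ne'⟩
    obtain ⟨a, ha, ha'⟩ := hζ.eq_pow_of_pow_eq_one h4
    exact Finset.mem_coe.2 (Finset.mem_image.2 ⟨a, Finset.mem_range.2 ha, ha'⟩)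

end Pool.Agent.Helper9.RC
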