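import Pool.Agent.Helper9.RC.Engine
import Pool.Agent.Helper9.RC.Sum
import Pool.Agent.Helper48.BC.Fibre
import Pool.Agent.Helper35.BC.Newton
import Pool.Agent.Helper43.BC.U
import Pool.Agent.Helper43.BC.BP
import Pool.Agent.Helper73.BC.Residue

/-! Project RC (MP_1fe969_ag). The theorem on towers of base changes. -/

set_option autoImplicit false

namespace Pool.Agent.Helper9.RC

open IntermediateField Polynomial Module
open Pool.Agent.Helper75.QC (Uniruled IsFrob hom_ext isFrob_algebraic)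
open Pool.Agent.Helper73.CHA (IsModelL)
open Pool.Agent.Helper9.SS
open Pool.Agent.Helper43.CH (IsModel)

section

variable {p : ℕ} [hpr : Fact p.Prime] {O L : Type} [Field O] [CharP O p] [Field L]

/-- the values of a polynomial over the field with `q` elements -/
theorem aeval_frob {K : Type} [Field K] [Algebra O K] {e : ℕ} {A : O[X]}
    (hA : ∀ i, A.coeff i ^ p ^ e = A.coeff i) (u : K) : aeval (u ^ p ^ e) A = aeval u A ^ p ^ e := by
  have hcK : CharP K p := charP_of_injective_algebraMap (algebraMap O K).injective p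
  rw [aeval_eq_sum_range, aeval_eq_sum_range, sum_pow_char_pow]
  refine Finset.sum_congr rfl fun i _ => ?_
  rw [Algebra.smul_def, Algebra.smul_def, mul_pow, ← map_pow, hA i, ← pow_mul, ← pow_mul,
    mul_comm i]

/-- the Frobenius endomorphism of the model -/
theorem exists_frob_model {K : Type} [Field K] [Algebra O K] {n e : ℕ} {A B : O[X]} {x y w : K}
    (h : IsModelL O (X ^ n) A B x y w) (hq : IsOver (p ^ e) A B) :
    ∃ φ : K →ₐ[O] K, φ x = x ^ p ^ e ∧ φ y = y ^ p ^ e ∧ φ w = w ^ p ^ e := by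
  have hcK : CharP K p := charP_of_injective_algebraMap (algebraMap O K).injective p
  have hp0 : 0 < p ^ e := pow_pos hpr.out.pos e
  refine h.exists_hom (h.indep ?_ ?_) ?_
  · refine IsAlgebraic.of_pow hp0 ?_
    exact isAlgebraic_algebraMap
      (⟨x ^ p ^ e, subset_adjoin O _ (Or.inl rfl)⟩ : adjoin O {x ^ p ^ e, w ^ p ^ e})
  · refine IsAlgebraic.of_pow hp0 ?_
    exact isAlgebraic_algebraMap
      (⟨w ^ p ^ e, subset_adjoin O _ (Or.inr rfl)⟩ : adjoin O {x ^ p ^ e, w ^ p ^ e})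
  · have h1 : aeval (w ^ p ^ e) (X ^ n : O[X]) = (aeval w (X ^ n : O[X])) ^ p ^ e := by
      rw [map_pow, map_pow, aeval_X, aeval_X, ← pow_mul, ← pow_mul, mul_comm n]
    rw [h1, aeval_frob hq.1, aeval_frob hq.2, ← pow_mul, mul_comm (p ^ e) 2, pow_mul, h.eqn,
      add_pow_char_pow, add_pow_char_pow, mul_pow, ← pow_mul, ← pow_mul, mul_comm 3]

theorem pow_fixed {q : ℕ} {a : O} (h : a ^ q = a) (i : ℕ) : a ^ q ^ i = a := by
  induction i with
  | zero => rw [pow_zero, pow_one]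
  | succ i ih => rw [pow_succ, pow_mul, ih, h]

theorem IsOver.pow {q : ℕ} {A B : O[X]} (h : IsOver q A B) (i : ℕ) : IsOver (q ^ i) A B :=
  ⟨fun k => pow_fixed (h.1 k) i, fun k => pow_fixed (h.2 k) i⟩

variable [IsAlgClosed O]

omit hpr [IsAlgClosed O] [CharP O p] in
/-- the determinant modulo `r` -/
theorem det_tower {r : ℕ} [Fact r.Prime] (g : Matrix (Fin 2) (Fin 2) ℤ) (o k : ℕ) :
    (((1 + g ^ (o * r ^ k)).det : ℤ) : ZMod r) = (((1 + g ^ o).det : ℤ) : ZMod r) ^ r ^ k := by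
  have h1 : ∀ M : Matrix (Fin 2) (Fin 2) ℤ, (((1 + M).det : ℤ) : ZMod r) =
      (1 + (Int.castRingHom (ZMod r)).mapMatrix M).det := by
    intro M
    have h2 : ((1 + M).det : ZMod r) = Int.castRingHom (ZMod r) (1 + M).det := rfl
    rw [h2, RingHom.map_det, map_add, map_one]
  rw [h1, h1, ← Matrix.det_pow, add_pow_char_pow_of_commute _ _ (Commute.one_left _), one_pow,
    pow_mul, map_pow _ (g ^ o)]

/-- the fibres over `0` and `∞` -/
theorem fibre (hp3 : 3 < p) (T : Towers p O L) {r e j o k : ℕ} (hr : r.Prime) (hr2 : r ≠ 2)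
    (he : 0 < e) (hj : 0 < j) (ho : 2 * j = o * r ^ k) {a b : O} (ha : a ^ p ^ e = a)
    (hb : b ^ p ^ e = b) (h : IsAdmissible r ((p ^ e) ^ o) a b) :
    ∃ g : Matrix (Fin 2) (Fin 2) ℤ, (∀ N : ℕ, 0 < N →
      (curveCount ((p ^ (e * (2 * j))) ^ N) a b : ℤ) = ((p : ℤ) ^ (e * (2 * j))) ^ N - (g ^ N).trace) ∧
      (((1 + g).det : ℤ) : ZMod r) ≠ 0 := by
  have : Fact r.Prime := ⟨hr⟩
  by_cases h4 : 4 * a ^ 3 + 27 * b ^ 2 = 0
  · obtain ⟨c, hc, h1⟩ := Pool.Agent.Helper48.BC.fibre_sing hp3 he hj ha hb h4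
    refine ⟨Matrix.diagonal ![c, 0], fun N hN => ?_, ?_⟩
    · rw [h1 N hN, Matrix.diagonal_pow, Matrix.trace_diagonal, Fin.sum_univ_two]
      have h2 : c ^ N = c := by
        rcases hc with rfl | rfl
        · exact zero_pow hN.ne'
        · exact one_pow N
      simp [h2, hN.ne']
    · have h2 : (1 + Matrix.diagonal ![c, 0] : Matrix (Fin 2) (Fin 2) ℤ).det = 1 + c := by
        rw [Matrix.det_fin_two]
        simp
      rw [h2]
      rcases hc with rfl | rfl
      · simp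
      · have h3 : ((1 + 1 : ℤ) : ZMod r) = ((2 : ℕ) : ZMod r) := by norm_num
        rw [h3, Ne, ZMod.natCast_eq_zero_iff]
        intro h5
        exact hr2 ((Nat.prime_dvd_prime_iff_eq hr Nat.prime_two).1 h5)
  · rcases h with h | h
    · exact absurd h h4
    obtain ⟨g, hg, h1⟩ := T.hasse e a b he ha hb h4
    push_cast at hg h1
    have ho0 : 0 < o := by
      rcases Nat.eq_zero_or_pos o with rfl | h2
      · rw [zero_mul] at ho
        omega
      · exact h2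
    refine ⟨g ^ (2 * j), fun N hN => ?_, ?_⟩
    · have h2 := h1 (2 * j * N) (by positivity)
      rw [pow_mul p, ← pow_mul (p ^ e) (2 * j), ← pow_mul g, h2, pow_mul (p : ℤ) e (2 * j),
        ← pow_mul ((p : ℤ) ^ e) (2 * j)]
    · have h2 : (1 + g ^ o).det = 1 + (g ^ o).trace + (g ^ o).det := by
        rw [Matrix.det_fin_two, Matrix.det_fin_two, Matrix.trace_fin_two]
        simp only [Matrix.add_apply, Matrix.one_apply_eq,
          Matrix.one_apply_ne (by decide : (0 : Fin 2) ≠ 1),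
          Matrix.one_apply_ne (by decide : (1 : Fin 2) ≠ 0)]
        ring
      have h3 := h1 o ho0
      have h5 : (1 + g ^ o).det = 2 * ((p ^ e) ^ o : ℕ) + 1 - curveCount ((p ^ e) ^ o) a b := by
        rw [h2, Matrix.det_pow, hg, h3]
        push_cast
        ring
      rw [ho, det_tower]
      refine pow_ne_zero _ ?_
      rw [h5, Ne, ZMod.intCast_zmod_eq_zero_iff_dvd]
      exact h

/-- `- q ^ (2 * j)` is no eigenvalue -/
theorem no_eig [CharZero L] [IsAlgClosed L] (hp3 : 3 < p) (T : Towers p O L) {r k e j o : ℕ}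
    (hr : r.Prime) (hr2 : r ≠ 2) (he : 0 < e) (hj : 0 < j) (hj4 : 4 ∣ j) (ho : 2 * j = o * r ^ k)
    (hrk : r ^ k ∣ (p ^ e) ^ j + 1) {A B : O[X]} (hAB : IsRational A B) (hq : IsOver (p ^ e) A B)
    (h0 : IsAdmissible r ((p ^ e) ^ o) (A.coeff 0) (B.coeff 0))
    (h1 : IsAdmissible r ((p ^ e) ^ o) (A.coeff 4) (B.coeff 6))
    {K : Type} [Field K] [Algebra O K] {x y w : K} (h : IsModelL O (X ^ r ^ k) A B x y w)
    {φ s : K →ₐ[O] K} (hx : φ x = x ^ p ^ e) (hy : φ y = y ^ p ^ e) (hw : φ w = w ^ p ^ e) {ζ : O}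
    (hζ : IsPrimitiveRoot ζ (r ^ k)) (sx : s x = x) (sy : s y = y)
    (sw : s w = algebraMap O K ζ * w) {c : L} (hc : c ^ r ^ k = 1) (hc1 : c ≠ 1) {z : T.H K}
    (hz : T.map s z = c • z)
    (hφz : T.map (φ ^ (j * 2)) z = (-((p : L) ^ e) ^ (j * 2)) • z) : z = 0 := by
  have : Fact r.Prime := ⟨hr⟩
  have hk : 0 < k := by
    rcases Nat.eq_zero_or_pos k with rfl | hk
    · rw [pow_zero, pow_one] at hc
      exact absurd hc hc1
    · exact hk
  have h12 := Pool.Agent.Helper43.BC.big_prime hr hr2 hj4 hk hrk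
  have hcop : Nat.Coprime (r ^ k) 6 := by
    refine Nat.Coprime.pow_left k ((Nat.Prime.coprime_iff_not_dvd hr).2 fun hd => ?_)
    have := Nat.le_of_dvd (by norm_num) hd
    omega
  obtain ⟨E, hE⟩ : ∃ E, E = e * (2 * j) := ⟨_, rfl⟩
  have hE0 : 0 < E := by rw [hE]; positivity
  have hpE : (p ^ e) ^ (j * 2) = p ^ E := by rw [hE, ← pow_mul]; congr 1; ring
  have hpL : ((p : L) ^ e) ^ (j * 2) = (p : L) ^ E := by rw [hE, ← pow_mul]; congr 1; ring
  have hQr : ((p ^ E : ℕ) : ZMod r) = 1 := by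
    have h2 : (r : ℕ) ∣ (p ^ e) ^ j + 1 := (dvd_pow_self r hk.ne').trans hrk
    have h3 : (((p ^ e) ^ j + 1 : ℕ) : ZMod r) = 0 := (ZMod.natCast_eq_zero_iff _ _).2 h2
    rw [← hpE, pow_mul]
    push_cast at h3 ⊢
    have h4 : (((p : ZMod r) ^ e) ^ j) = -1 := by linear_combination h3
    rw [h4]
    ring
  have hn : r ^ k ∣ p ^ E - 1 := by
    have h2 : 1 ≤ (p ^ e) ^ j := Nat.one_le_pow _ _ (pow_pos hpr.out.pos e)
    have h3 : (p ^ e) ^ (j * 2) - 1 = ((p ^ e) ^ j + 1) * ((p ^ e) ^ j - 1) := by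
      obtain ⟨d, hd⟩ := Nat.exists_eq_add_of_le h2
      rw [pow_mul, hd]
      have h3 : (1 + d) ^ 2 = 1 + (1 + d + 1) * d := by ring
      rw [h3, Nat.add_sub_cancel_left, Nat.add_sub_cancel_left]
    rw [← hpE, h3]
    exact hrk.mul_right _
  have hqE : IsOver (p ^ E) A B := by
    rw [← hpE]
    exact hq.pow _
  obtain ⟨V, _, _, F, rr, hfin, hdim, hcomm, hrange, htr⟩ := T.trace (r ^ k) E A B x y w ζ s
    (φ ^ (j * 2)) c hcop hE0 hn hAB hqE ⟨h, hζ, sx, sy, sw, by rw [frob_pow hx, hpE],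
      by rw [frob_pow hy, hpE], by rw [frob_pow hw, hpE]⟩ hc hc1
  obtain ⟨v, hv⟩ := (hrange z).1 hz
  by_contra hz0
  rw [hpL] at hφz
  -- the eigenvalue
  have hev : ∀ P : L[X], rr (aeval F P v) = P.eval (-(p : L) ^ E) • z := by
    intro P
    have hpow : ∀ i : ℕ, rr ((F ^ i) v) = (-(p : L) ^ E) ^ i • z := by
      intro i
      induction i with
      | zero => rw [pow_zero, pow_zero, one_smul, Module.End.one_apply, hv]
      | succ i ih =>
        rw [pow_succ', Module.End.mul_apply, hcomm, ih, map_smul, hφz, smul_smul, ← pow_succ]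
    rw [aeval_eq_sum_range, LinearMap.sum_apply, map_sum, eval_eq_sum_range, Finset.sum_smul]
    refine Finset.sum_congr rfl fun i _ => ?_
    rw [LinearMap.smul_apply, map_smul, hpow, smul_smul]
  have hroot : (minpoly L F).IsRoot (-(p : L) ^ E) := by
    have h2 := hev (minpoly L F)
    rw [minpoly.aeval, LinearMap.zero_apply, map_zero] at h2
    exact (smul_eq_zero.1 h2.symm).resolve_right hz0
  have heig : F.HasEigenvalue (-(p : L) ^ E) := Module.End.hasEigenvalue_of_isRoot hroot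
  -- reduction
  obtain ⟨S, ρ, hS⟩ := Pool.Agent.Helper73.BC.residue (L := L) (k := k) hr
  obtain ⟨hcS, hρc⟩ := hS c hc
  obtain ⟨g₀, hg₀, hd₀⟩ := fibre hp3 T hr hr2 he hj ho (hq.1 0) (hq.2 0) h0
  obtain ⟨g₁, hg₁, hd₁⟩ := fibre hp3 T hr hr2 he hj ho (hq.1 4) (hq.2 6) h1
  obtain ⟨d, m, g, hd, hm, hg, hcount⟩ := T.shioda e A B he hAB hq
  push_cast at hcount
  have hcount' : ∀ N : ℕ, 0 < N → (surfCount ((p ^ E) ^ N) A B : ℤ) =
      (((p ^ E : ℕ) : ℤ) ^ N) ^ 2 + ((p ^ E : ℕ) : ℤ) ^ N * (((g ^ (2 * j)) ^ N).trace - 1) +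
        (g₀ ^ N).trace + (g₁ ^ N).trace := by
    intro N hN
    have e1 : (p ^ e) ^ (2 * j * N) = (p ^ E) ^ N := by rw [hE, ← pow_mul, ← pow_mul]; congr 1; ring
    have e2 : ((p : ℤ) ^ e) ^ (2 * j * N) = ((p : ℤ) ^ E) ^ N := by
      rw [hE, ← pow_mul, ← pow_mul]; congr 1; ring
    have h2 := hcount (2 * j * N) (by positivity)
    have h3 := hg₀ N hN
    have h4 := hg₁ N hN
    rw [← hE] at h3 h4
    rw [e1, e2, h3, h4, pow_mul g] at h2
    rw [h2]
    push_cast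
    ring
  obtain ⟨M, hM, hMdet⟩ := Pool.Agent.Helper48.BC.sum_mod hQr (g ^ (2 * j)) g₀ g₁ (fun N => surfCount ((p ^ E) ^ N) A B)
    hcount'
  have hQ1 : 1 < p ^ E := Nat.one_lt_pow hE0.ne' hpr.out.one_lt
  have hrk0 : 0 < r ^ k := pow_pos hr.pos k
  have key := Pool.Agent.Helper35.BC.det_eq_zero_of_hasEigenvalue hr S.subtype
    Subtype.val_injective ρ F M (by omega) (by
      simp only [Fintype.card_sum, Fintype.card_fin]
      omega)
    (fun N => ∑ i ∈ Finset.range (r ^ k), (⟨c, hcS⟩ : S) ^ i *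
      (classCount ((p ^ E) ^ N) (r ^ k) ζ i A B : S))
    (fun N hN => by
      rw [htr N hN, map_sum]
      refine Finset.sum_congr rfl fun i _ => ?_
      rw [map_mul, map_pow, map_natCast]
      rfl)
    (fun N hN => by
      rw [← hM N hN, map_sum]
      have h2 : r ^ k ∣ (p ^ E) ^ N - 1 := hn.trans (Nat.sub_one_dvd_pow_sub_one _ _)
      rw [← sum_classCount hrk0 (Nat.one_lt_pow hN.ne' hQ1) h2 hζ A B, Nat.cast_sum]
      refine Finset.sum_congr rfl fun i _ => ?_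
      rw [map_mul, map_pow, hρc, one_pow, one_mul, map_natCast])
    (-((p ^ E : ℕ) : S)) (by
      rw [map_neg, map_natCast, hQr]
      exact neg_ne_zero.2 one_ne_zero)
    (by
      rw [map_neg, map_natCast]
      push_cast
      exact heig)
  rw [map_neg, map_natCast, hQr, hMdet] at key
  have hdg : (((1 + g ^ (2 * j)).det : ℤ) : ZMod r) ≠ 0 := by
    obtain ⟨m', hm', hgm⟩ := Pool.Agent.Helper43.BC.pow_odd hm hg
      (l := 2 * j) (by omega)
    have h2 : ((2 : ℕ) : ZMod r) ≠ 0 := by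
      rw [Ne, ZMod.natCast_eq_zero_iff]
      intro h5
      exact hr2 ((Nat.prime_dvd_prime_iff_eq hr Nat.prime_two).1 h5)
    have h3 := Pool.Agent.Helper43.BC.det_one_add_ne (k := ZMod r) (by exact_mod_cast h2)
      (h := (g ^ (2 * j)).map (Int.castRingHom (ZMod r))) hm' (by
        rw [← RingHom.mapMatrix_apply, ← map_pow, hgm, map_one])
    intro h4
    apply h3
    have h5 : Int.castRingHom (ZMod r) (1 + g ^ (2 * j)).det = 0 := h4
    rw [RingHom.map_det, map_add, map_one] at h5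
    exact h5
  rcases mul_eq_zero.1 key with h2 | h2
  · exact absurd h2 (pow_ne_zero _ (neg_ne_zero.2 one_ne_zero))
  · push_cast at h2 hdg hd₀ hd₁
    rcases mul_eq_zero.1 h2 with h3 | h3
    · rcases mul_eq_zero.1 h3 with h4 | h4
      · exact hdg h4
      · exact hd₀ h4
    · exact hd₁ h3

omit hpr in
/-- the exponents -/
theorem exists_exponent {q r : ℕ} (hr : r.Prime) (hq : (q : ZMod r) ≠ 0)
    (h8 : 8 ∣ orderOf (q : ZMod r)) (k : ℕ) : r ≠ 2 ∧ ∃ j : ℕ, 0 < j ∧ 4 ∣ j ∧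
      2 * j = orderOf (q : ZMod r) * r ^ k ∧ r ^ k ∣ q ^ j + 1 := by
  have : Fact r.Prime := ⟨hr⟩
  obtain ⟨t, ht⟩ := h8
  have ho : 0 < orderOf (q : ZMod r) := by
    refine orderOf_pos_iff.2 (isOfFinOrder_iff_pow_eq_one.2 ⟨r - 1, ?_, ZMod.pow_card_sub_one_eq_one hq⟩)
    have := hr.two_le
    omega
  have ht0 : 0 < t := by omega
  have h1 : ((q : ZMod r) ^ (4 * t)) ^ 2 = 1 := by
    rw [← pow_mul, show 4 * t * 2 = orderOf (q : ZMod r) by rw [ht]; ring]
    exact pow_orderOf_eq_one _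
  have h2 : (q : ZMod r) ^ (4 * t) ≠ 1 := by
    intro h3
    have h4 := Nat.le_of_dvd (by omega) (orderOf_dvd_of_pow_eq_one h3)
    omega
  have h3 : (q : ZMod r) ^ (4 * t) = -1 := by
    have h4 : ((q : ZMod r) ^ (4 * t) - 1) * ((q : ZMod r) ^ (4 * t) + 1) = 0 := by
      linear_combination h1
    rcases mul_eq_zero.1 h4 with h | h
    · exact absurd (sub_eq_zero.1 h) h2
    · exact eq_neg_of_add_eq_zero_left h
  have hr2 : r ≠ 2 := by
    intro h4
    apply h2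
    have h5 : (((2 : ℕ)) : ZMod r) = 0 := (ZMod.natCast_eq_zero_iff _ _).2 (by rw [h4])
    rw [h3]
    push_cast at h5
    linear_combination - h5
  refine ⟨hr2, 4 * t * r ^ k, Nat.mul_pos (by omega) (pow_pos hr.pos k), ?_, ?_, ?_⟩
  · exact (Dvd.intro t rfl).mul_right _
  · rw [ht]
    ring
  · have h4 : (r : ℤ) ∣ (q : ℤ) ^ (4 * t) - (-1) := by
      rw [← ZMod.intCast_zmod_eq_zero_iff_dvd]
      push_cast
      rw [h3]
      ring
    have h5 := dvd_sub_pow_of_dvd_sub h4 k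
    have h6 : Odd (r ^ k) := (hr.odd_of_ne_two hr2).pow
    rw [h6.neg_one_pow, sub_neg_eq_add, ← pow_mul] at h5
    have h7 : ((r ^ k : ℕ) : ℤ) ∣ ((q ^ (4 * t * r ^ k) + 1 : ℕ) : ℤ) := by
      push_cast
      exact (pow_dvd_pow _ (Nat.le_succ k)).trans h5
    exact_mod_cast h7

/-- **Towers of base changes.** -/
theorem tower [CharZero L] [IsAlgClosed L] (hp3 : 3 < p)
    (hΩ : ∀ c : O, ∃ k : ℕ, 0 < k ∧ c ^ p ^ k = c) (T : Towers p O L) {r e o : ℕ} (k : ℕ)
    (hr : r.Prime) (hrp : r ≠ p) (he : 0 < e) (ho : orderOf ((p ^ e : ℕ) : ZMod r) = o)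
    (h8 : 8 ∣ o) {A B : O[X]} (hAB : IsRational A B) (hq : IsOver (p ^ e) A B)
    (h0 : IsAdmissible r ((p ^ e) ^ o) (A.coeff 0) (B.coeff 0))
    (h1 : IsAdmissible r ((p ^ e) ^ o) (A.coeff 4) (B.coeff 6))
    {K : Type} [Field K] [Algebra O K] {x y w : K} (h : IsModelL O (X ^ r ^ k) A B x y w) :
    IsGood p T.toCoh K ∧ AllSemisimple p T.toCoh K := by
  have hq0 : ((p ^ e : ℕ) : ZMod r) ≠ 0 := by
    rw [Ne, ZMod.natCast_eq_zero_iff]
    intro h2
    exact hrp ((Nat.prime_dvd_prime_iff_eq hr hpr.out).1 (hr.dvd_of_dvd_pow h2))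
  subst ho
  obtain ⟨hr2, j, hj, hj4, hjo, hrk⟩ := exists_exponent hr hq0 h8 k
  obtain ⟨φ, hx, hy, hw⟩ := exists_frob_model h hq
  have hm : ((r ^ k : ℕ) : O) ≠ 0 := by
    obtain ⟨d, hd⟩ := hrk
    intro h0
    have h1 := congrArg (fun n : ℕ => (n : O)) hd
    simp only [Nat.cast_add, Nat.cast_mul, Nat.cast_one, h0, zero_mul] at h1
    simp only [Nat.cast_pow, CharP.cast_eq_zero] at h1
    rw [zero_pow he.ne', zero_pow hj.ne', zero_add] at h1
    exact one_ne_zero h1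
  have : NeZero ((r ^ k : ℕ) : O) := ⟨hm⟩
  obtain ⟨ζ, hζ⟩ : ∃ ζ : O, IsPrimitiveRoot ζ (r ^ k) :=
    HasEnoughRootsOfUnity.exists_primitiveRoot O (r ^ k)
  have h' := IsModelL.toM h
  obtain ⟨s, sx, sy, sw⟩ := h'.exists_rot hζ.pow_eq_one (hζ.ne_zero (pow_pos hr.pos k).ne')
  exact good_tower hp3 hΩ T.toMotives hAB h hm he hj hrk hx hy hw hζ (s := (s : K →ₐ[O] K)) sx sy sw
    fun c hc hc1 z hz hφz => no_eig hp3 T hr hr2 he hj hj4 hjo hrk hAB hq h0 h1 h hx hy hw hζ sx sy sw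
      hc hc1 hz hφz

end

end Pool.Agent.Helper9.RC
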